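import Pool.Agent.K1H6.Nu3
import Pool.Agent.Results.MP_c222f6_nt.InfinitelyManyNu2

/-!
# Infinitely many maximal `(ν₃, 2)`-progressions

For every prime `p ≡ 7 (mod 24)` the pair `(36 p², 6 p)` is a `(ν₃, 2)`-progression, and every
`(ν₃, 2)`-progression containing it has a first entry divisible by `p`. This answers Q2.

The proof: by conjugation of partitions `ν₃(n)` has the parity of the number of the solutions of
`(x + y)² + 2 x z = n` in positive integers; for the `n` in question two further involutions and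
the involution of Zagier show that this number is even.
-/

set_option autoImplicit false

namespace Pool.Agent.Results.MP_c222f6_nt.InfinitelyManyNu3

open Finset Pool.Agent.R443

/-- `nu k n` is the number of partitions of `n` in which exactly `k` distinct part sizes occur. -/
def nu (k n : ℕ) : ℕ :=
  (univ.filter (fun p : n.Partition => p.parts.toFinset.card = k)).card

/-- The arithmetic progression `P(A, B) = {A n + B : n ≥ 0}`. -/
def P (A B : ℕ) : Set ℕ := {x | ∃ n : ℕ, x = A * n + B}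

/-- `(A, B)` is a `(ν_k, M)`-progression. -/
def IsProgression (k M A B : ℕ) : Prop :=
  1 ≤ A ∧ 1 ≤ B ∧ B ≤ A ∧ ∀ n : ℕ, M ∣ nu k (A * n + B)

/-- `(A, B)` is a maximal `(ν_k, M)`-progression. -/
def IsMaximal (k M A B : ℕ) : Prop :=
  IsProgression k M A B ∧ ¬ ∃ A' B' : ℕ, IsProgression k M A' B' ∧ P A B ⊂ P A' B'

theorem P_subset {A B A' B' : ℕ} (h : P A B ⊆ P A' B') : A' ∣ A ∧ B' ≤ B ∧ A' ∣ B - B' :=
  InfinitelyManyNu2.P_subset h

/-- Every progression lies in a maximal one. -/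
theorem exists_maximal (k M A B : ℕ) (h : IsProgression k M A B) :
    ∃ A' B' : ℕ, IsMaximal k M A' B' ∧ P A B ⊆ P A' B' :=
  InfinitelyManyNu2.exists_maximal k M A B h

/-- `3 ∣ x² + y²` only if `9` divides it -/
theorem nine_dvd {x y : ℕ} (h : 3 ∣ x * x + y * y) : 9 ∣ x * x + y * y := by
  have hx : x % 3 = 0 ∧ y % 3 = 0 := by
    have h1 : (x * x + y * y) % 3 = 0 := Nat.mod_eq_zero_of_dvd h
    rw [Nat.add_mod, Nat.mul_mod x, Nat.mul_mod y] at h1
    have hx3 : x % 3 < 3 := Nat.mod_lt _ (by norm_num)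
    have hy3 : y % 3 < 3 := Nat.mod_lt _ (by norm_num)
    interval_cases (x % 3) <;> interval_cases (y % 3) <;> simp_all
  obtain ⟨a, rfl⟩ : ∃ a, x = 3 * a := ⟨x / 3, by omega⟩
  obtain ⟨b, rfl⟩ : ∃ b, y = 3 * b := ⟨y / 3, by omega⟩
  exact ⟨a * a + b * b, by ring⟩

theorem not_two_sq {p N : ℕ} (hp : p.Prime) (hp8 : p % 8 = 7) (h1 : p ∣ N) (h2 : ¬ p ^ 2 ∣ N)
    (x y : ℕ) : x * x + 2 * (y * y) ≠ N := by
  intro h
  have : Fact p.Prime := ⟨hp⟩
  have h3 : ((x * x + 2 * (y * y) : ℕ) : ZMod p) = 0 := by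
    rw [h, ZMod.natCast_eq_zero_iff]
    exact h1
  push_cast at h3
  have hy : (y : ZMod p) = 0 := by
    by_contra hy
    have hsq : IsSquare (-2 : ZMod p) := by
      refine ⟨(x : ZMod p) * (y : ZMod p)⁻¹, ?_⟩
      have h4 : (x : ZMod p) * (y : ZMod p)⁻¹ * ((x : ZMod p) * (y : ZMod p)⁻¹) =
          ((x : ZMod p) * x) * ((y : ZMod p)⁻¹ * (y : ZMod p)⁻¹) := by ring
      rw [h4, show (x : ZMod p) * x = -2 * (y * y) by linear_combination h3]
      field_simp
    rw [ZMod.exists_sq_eq_neg_two_iff (by rintro rfl; omega)] at hsq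
    omega
  have hx : (x : ZMod p) = 0 := by
    rw [hy] at h3
    have : (x : ZMod p) * x = 0 := by linear_combination h3
    exact mul_self_eq_zero.mp this
  rw [ZMod.natCast_eq_zero_iff] at hx hy
  apply h2
  rw [← h, pow_two]
  exact dvd_add (mul_dvd_mul hx hx) (Dvd.dvd.mul_left (mul_dvd_mul hy hy) 2)

/-- `(36 p², 6 p)` is a `(ν₃, 2)`-progression. -/
theorem progression {p : ℕ} (hp : p.Prime) (hp24 : p % 24 = 7) :
    IsProgression 3 2 (36 * p ^ 2) (6 * p) := by
  have hp0 := hp.pos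
  refine ⟨Nat.one_le_iff_ne_zero.mpr (by positivity), by omega, by nlinarith, ?_⟩
  intro n
  obtain ⟨b, hb⟩ : ∃ b, b = 6 * (p * n) + 1 := ⟨_, rfl⟩
  have e : 36 * p ^ 2 * n + 6 * p = 2 * (3 * (p * b)) := by rw [hb]; ring
  have hpb : ¬ p ∣ b := by
    intro h
    rw [hb] at h
    have h1 : p ∣ 1 := (Nat.dvd_add_right (Dvd.dvd.mul_left (dvd_mul_right p n) 6)).mp h
    exact hp.one_lt.ne' (Nat.dvd_one.mp h1)
  obtain ⟨m, hm⟩ : ∃ m, p = 24 * m + 7 := ⟨p / 24, by omega⟩
  obtain ⟨u, hu⟩ : ∃ u, p * b = 6 * u + 1 := by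
    refine ⟨(24 * m + 7) * (p * n) + 4 * m + 1, ?_⟩
    rw [hb, hm]; ring
  rw [e]
  have hns : ∀ x y : ℕ, x * x + y * y ≠ 2 * (3 * (p * b)) := by
    intro x y h
    have h3 : 3 ∣ x * x + y * y := by rw [h]; exact ⟨2 * (p * b), by ring⟩
    have h9 := nine_dvd h3
    rw [h, hu] at h9
    omega
  have hN : ∀ {x y : ℕ}, x * x + 2 * (y * y) ≠ 3 * (p * b) := by
    intro x y
    refine not_two_sq hp (by omega) (Dvd.dvd.mul_left (dvd_mul_right p b) 3) ?_ x y
    intro h
    rw [pow_two, show 3 * (p * b) = p * (3 * b) by ring] at h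
    have h1 := Nat.dvd_of_mul_dvd_mul_left hp0 h
    rcases (Nat.Prime.dvd_mul hp).mp h1 with h2 | h2
    · have := Nat.le_of_dvd (by norm_num) h2
      omega
    · exact hpb h2
  refine Pool.Agent.K1H6.Nu3.two_dvd_nu (by omega) (fun x y _ _ => hns x y) (fun x y => hN) ?_
  intro a f h
  have h3 : 3 ∣ a * a + f * f := by
    have : a * a + f * f = 3 * (a * a) - 2 * (3 * (p * b)) := by omega
    rw [this]
    exact (Nat.dvd_sub (dvd_mul_right _ _) ⟨2 * (p * b), by ring⟩)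
  have h9 := nine_dvd h3
  have h4 : ∃ c, a = 3 * c := by
    have : (a * a + f * f) % 3 = 0 := Nat.mod_eq_zero_of_dvd h3
    rw [Nat.add_mod, Nat.mul_mod a, Nat.mul_mod f] at this
    have hx3 : a % 3 < 3 := Nat.mod_lt _ (by norm_num)
    have hy3 : f % 3 < 3 := Nat.mod_lt _ (by norm_num)
    refine ⟨a / 3, ?_⟩
    have ha : a % 3 = 0 := by
      interval_cases (a % 3) <;> interval_cases (f % 3) <;> simp_all
    omega
  obtain ⟨c, rfl⟩ := h4
  have e5 : 3 * c * (3 * c) = 9 * (c * c) := by ring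
  rw [e5] at h h9
  obtain ⟨g, hg⟩ := h9
  omega

theorem nu_six : ¬ 2 ∣ nu 3 6 := by
  have h1 : ((nu 3 6 : ℕ) : ZMod 2) = (((Pool.Agent.K1H6.Nu3.Sc 6).card : ℕ) : ZMod 2) :=
    Pool.Agent.K1H6.Nu3.nu_three_parity 6
  have h2 : (Pool.Agent.K1H6.Nu3.Sc 6).card = 1 := by decide +kernel
  rw [h2] at h1
  intro h
  rw [← Nu2.cast_eq_zero_iff_even, h1] at h
  revert h
  decide

/-- The first entries of the maximal progressions are unbounded. -/
theorem unbounded (N : ℕ) : ∃ A B : ℕ, IsMaximal 3 2 A B ∧ N < A := by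
  obtain ⟨p, hpN, hp, hpeq⟩ := Nat.forall_exists_prime_gt_and_eq_mod (q := 24) (a := 7)
    (by decide) N
  have hp24 : p % 24 = 7 := by
    have h1 : ((p : ℕ) : ZMod 24) = ((7 : ℕ) : ZMod 24) := by rw [hpeq]; rfl
    have h2 := (ZMod.natCast_eq_natCast_iff p 7 24).mp h1
    exact h2
  obtain ⟨A, B, hmax, hsub⟩ := exists_maximal 3 2 _ _ (progression hp hp24)
  refine ⟨A, B, hmax, ?_⟩
  obtain ⟨h1, h2, h3⟩ := P_subset hsub
  obtain ⟨hA1, hB1, hBA, hdiv⟩ := hmax.1
  have hpA : p ∣ A := by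
    by_contra hcon
    have hcop : Nat.Coprime A (p ^ 2) := by
      apply Nat.Coprime.pow_right
      rw [Nat.coprime_comm]
      exact (Nat.Prime.coprime_iff_not_dvd hp).mpr hcon
    have h4 : A ∣ 36 := hcop.dvd_of_dvd_mul_right h1
    have h6 : ∃ n, A * n + B = 6 := by
      obtain ⟨m, hm⟩ : ∃ m, p = 24 * m + 7 := ⟨p / 24, by omega⟩
      -- `A` divides `6 - B` as an integer
      have h5 : (A : ℤ) ∣ 6 - B := by
        have h7 : (A : ℤ) ∣ ((6 * p - B : ℕ) : ℤ) := by exact_mod_cast h3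
        rw [Nat.cast_sub h2] at h7
        have h8 : (A : ℤ) ∣ 36 * (4 * m + 1) := Dvd.dvd.mul_right (by exact_mod_cast h4) _
        have h9 : (6 : ℤ) - B = ((6 * p : ℕ) : ℤ) - B - 36 * (4 * m + 1) := by
          rw [hm]; push_cast; ring
        rw [h9]
        exact dvd_sub h7 h8
      obtain ⟨k, hk⟩ := h5
      have hk0 : 0 ≤ k := by
        by_contra hneg
        push Not at hneg
        have : (A : ℤ) * k ≤ -A := by nlinarith
        have h10 : (B : ℤ) ≤ A := by exact_mod_cast hBA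
        linarith
      obtain ⟨n, rfl⟩ := Int.eq_ofNat_of_zero_le hk0
      exact ⟨n, by zify; linarith⟩
    obtain ⟨n, hn⟩ := h6
    have := hdiv n
    rw [hn] at this
    exact nu_six this
  exact lt_of_lt_of_le hpN (Nat.le_of_dvd (by omega) hpA)

/-- There are infinitely many maximal `(ν₃, 2)`-progressions. -/
theorem result : {q : ℕ × ℕ | IsMaximal 3 2 q.1 q.2}.Infinite := by
  intro hfin
  obtain ⟨M, hM⟩ := (hfin.image Prod.fst).bddAbove
  obtain ⟨A, B, h1, h2⟩ := unbounded M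
  have : A ≤ M := hM ⟨(A, B), h1, rfl⟩
  omega

end Pool.Agent.Results.MP_c222f6_nt.InfinitelyManyNu3
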